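import Pool.Agent.Helper37.SN.Stmts

set_option autoImplicit false

/-!
CN: the coefficients of the fractional derivative of a bump and their increments are summable.
-/

namespace Pool.Agent.Helper37.SN

open MeasureTheory Finset
open scoped ENNReal Classical

/-- sums over the integers from sums over the two halves -/
theorem cn_int_sum (f : ℤ → ℝ) (hf : ∀ n, 0 ≤ f n) (A B : ℝ)
    (h1 : ∀ N : ℕ, ∑ n ∈ Finset.range N, f (n : ℤ) ≤ A)
    (h2 : ∀ N : ℕ, ∑ n ∈ Finset.range N, f (-((n : ℤ) + 1)) ≤ B) :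
    Summable f ∧ ∑' n, f n ≤ A + B := by
  have s1 : Summable (fun n : ℕ => f (n : ℤ)) := summable_of_sum_range_le (fun n => hf _) h1
  have s2 : Summable (fun n : ℕ => f (-((n : ℤ) + 1))) :=
    summable_of_sum_range_le (fun n => hf _) h2
  refine ⟨Summable.of_nat_of_neg_add_one s1 s2, ?_⟩
  rw [tsum_of_nat_of_neg_add_one s1 s2]
  exact add_le_add (Real.tsum_le_of_sum_range_le (fun n => hf _) h1)
    (Real.tsum_le_of_sum_range_le (fun n => hf _) h2)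

theorem cn_shift (f : ℕ → ℝ) (hf : ∀ n, 0 ≤ f n) (A B : ℝ) (h0 : f 0 ≤ B)
    (h1 : ∀ N : ℕ, ∑ n ∈ Finset.range N, f (n + 1) ≤ A) (N : ℕ) :
    ∑ n ∈ Finset.range N, f n ≤ A + B := by
  have e : ∑ n ∈ Finset.range (N + 1), f n = ∑ n ∈ Finset.range N, f (n + 1) + f 0 :=
    Finset.sum_range_succ' f N
  have h2 : ∑ n ∈ Finset.range N, f n ≤ ∑ n ∈ Finset.range (N + 1), f n :=
    Finset.sum_le_sum_of_subset_of_nonneg (Finset.range_mono (Nat.le_succ N))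
      (fun i _ _ => hf i)
  have h3 := h1 N
  linarith

/-- the inverse of the multiplier -/
theorem cn_inv (r : ℝ) (n : ℕ) (ε : ℤ) (hε : ε = 1 ∨ ε = -1) :
    (mult r (ε * ((n : ℤ) + 1)))⁻¹ = ((((n : ℝ) + 1) ^ r : ℝ) : ℂ) *
      Complex.exp (((Real.pi / 2 * r * (ε : ℝ) : ℝ) : ℂ) * Complex.I) := by
  have hn : (0 : ℝ) < (n : ℝ) + 1 := by positivity
  have hn' : (0 : ℤ) < (n : ℤ) + 1 := by positivity
  have hne : ε * ((n : ℤ) + 1) ≠ 0 := by
    rcases hε with h | h <;> rw [h] <;> omega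
  have habs : |((ε * ((n : ℤ) + 1) : ℤ) : ℝ)| = (n : ℝ) + 1 := by
    rcases hε with h | h <;> rw [h] <;> push_cast
    · rw [one_mul, abs_of_pos hn]
    · rw [neg_one_mul, abs_neg, abs_of_pos hn]
  have hsign : Int.sign (ε * ((n : ℤ) + 1)) = ε := by
    rcases hε with h | h <;> rw [h]
    · rw [one_mul]; exact Int.sign_eq_one_of_pos hn'
    · rw [neg_one_mul]; exact Int.sign_eq_neg_one_of_neg (by omega)
  unfold mult
  rw [if_neg hne, habs, hsign, mul_inv, ← Complex.exp_neg, neg_neg, ← Complex.ofReal_inv,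
    Real.rpow_neg hn.le, inv_inv, mul_comm Complex.I]

theorem cn_norm_E (θ : ℝ) : ‖Complex.exp ((θ : ℂ) * Complex.I)‖ = 1 :=
  Complex.norm_exp_ofReal_mul_I θ

/-- the coefficient away from zero -/
theorem cn_cc (r : ℝ) (W : ℝ → ℝ) (σ : ℕ) (n : ℕ) (ε : ℤ) (hε : ε = 1 ∨ ε = -1) :
    cc r W σ (ε * ((n : ℤ) + 1)) =
      Complex.exp (((Real.pi / 2 * r * (ε : ℝ) : ℝ) : ℂ) * Complex.I) *
        (((((2 : ℝ) ^ σ)⁻¹ : ℝ) : ℂ) * (((((n : ℝ) + 1) ^ r : ℝ) : ℂ) *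
          FT W ((ε : ℝ) * (((n : ℝ) + 1) * ((2 : ℝ) ^ σ)⁻¹)))) := by
  unfold cc
  rw [cn_inv r n ε hε, Complex.ofReal_inv]
  have e : ((ε * ((n : ℤ) + 1) : ℤ) : ℝ) / 2 ^ σ
      = (ε : ℝ) * (((n : ℝ) + 1) * ((2 : ℝ) ^ σ)⁻¹) := by
    push_cast
    ring
  rw [e]
  ring

theorem cn_abs (n : ℕ) (ε : ℤ) (hε : ε = 1 ∨ ε = -1) (h : ℝ) (hh : 0 < h) :
    |(ε : ℝ) * (((n : ℝ) + 1) * h)| = ((n : ℝ) + 1) * h := by
  have hp : 0 < ((n : ℝ) + 1) * h := by positivity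
  rcases hε with h | h <;> rw [h] <;> push_cast
  · rw [one_mul, abs_of_pos hp]
  · rw [neg_one_mul, abs_neg, abs_of_pos hp]

/-- increments of powers -/
theorem cn_pow (r : ℝ) (n : ℕ) :
    ((n : ℝ) + 1) ^ r - (n : ℝ) ^ r ≤ max r 1 * ((n : ℝ) + 1) ^ (r - 1) := by
  have hn : (0 : ℝ) < (n : ℝ) + 1 := by positivity
  have hn0 : (0 : ℝ) ≤ (n : ℝ) := by positivity
  set u : ℝ := ((n : ℝ) + 1)⁻¹ with hu
  have hu0 : 0 < u := by positivity
  have hu1 : u ≤ 1 := by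
    rw [hu]
    exact inv_le_one_of_one_le₀ (by linarith)
  have e1 : (n : ℝ) = ((n : ℝ) + 1) * (1 - u) := by
    rw [hu]
    field_simp
    ring
  have e2 : (n : ℝ) ^ r = ((n : ℝ) + 1) ^ r * (1 - u) ^ r := by
    conv_lhs => rw [e1]
    rw [Real.mul_rpow hn.le (by linarith)]
  have e3 : 1 - max r 1 * u ≤ (1 - u) ^ r := by
    rcases le_total 1 r with h | h
    · rw [max_eq_left h]
      have := one_add_mul_self_le_rpow_one_add (s := -u) (by linarith) h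
      calc 1 - r * u = 1 + r * (-u) := by ring
        _ ≤ (1 + -u) ^ r := this
        _ = (1 - u) ^ r := by ring_nf
    · rw [max_eq_right h, one_mul]
      rcases eq_or_lt_of_le hu1 with h1 | h1
      · rw [h1, sub_self]
        exact Real.rpow_nonneg le_rfl _
      · have := Real.rpow_le_rpow_of_exponent_ge (x := 1 - u) (by linarith) (by linarith) h
        rwa [Real.rpow_one] at this
  have e4 : ((n : ℝ) + 1) ^ (r - 1) = ((n : ℝ) + 1) ^ r * u := by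
    rw [Real.rpow_sub hn, Real.rpow_one, hu]
    rfl
  have hp : 0 < ((n : ℝ) + 1) ^ r := Real.rpow_pos_of_pos hn r
  rw [e2, e4]
  nlinarith [mul_le_mul_of_nonneg_left e3 hp.le]

/-- first bound -/
theorem cn_b1 (r : ℝ) (W : ℝ → ℝ) (σ k : ℕ) (A : ℝ)
    (hA : ∀ ξ : ℝ, ‖FT W ξ‖ ≤ A / (1 + |ξ|) ^ k) (n : ℕ) (ε : ℤ) (hε : ε = 1 ∨ ε = -1) (h : ℝ)
    (hh : h = ((2 : ℝ) ^ σ)⁻¹) :
    ‖cc r W σ (ε * ((n : ℤ) + 1))‖ ≤
      A * h * (((n : ℝ) + 1) ^ r / (1 + ((n : ℝ) + 1) * h) ^ k) := by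
  have hh0 : 0 < h := by rw [hh]; positivity
  have hp : 0 < ((n : ℝ) + 1) ^ r := Real.rpow_pos_of_pos (by positivity) r
  rw [cn_cc r W σ n ε hε, ← hh, norm_mul, cn_norm_E, one_mul, norm_mul, norm_mul,
    Complex.norm_real, Complex.norm_real, Real.norm_of_nonneg hh0.le, Real.norm_of_nonneg hp.le]
  have h1 := hA ((ε : ℝ) * (((n : ℝ) + 1) * h))
  rw [cn_abs n ε hε h hh0] at h1
  calc h * (((n : ℝ) + 1) ^ r * ‖FT W ((ε : ℝ) * (((n : ℝ) + 1) * h))‖)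
      ≤ h * (((n : ℝ) + 1) ^ r * (A / (1 + ((n : ℝ) + 1) * h) ^ k)) := by gcongr
    _ = _ := by ring

/-- second bound -/
theorem cn_b2 (r : ℝ) (hr : 0 < r) (W : ℝ → ℝ) (σ k : ℕ) (A : ℝ)
    (hA : ∀ ξ : ℝ, ‖FT W ξ‖ ≤ A / (1 + |ξ|) ^ k)
    (hB : ∀ ξ η : ℝ, |ξ - η| ≤ 1 → ‖FT W ξ - FT W η‖ ≤ A * |ξ - η| / (1 + |ξ|) ^ k)
    (n : ℕ) (ε : ℤ) (hε : ε = 1 ∨ ε = -1) (h : ℝ) (hh : h = ((2 : ℝ) ^ σ)⁻¹) :
    ‖cc r W σ (ε * (((n + 1 : ℕ) : ℤ) + 1)) - cc r W σ (ε * ((n : ℤ) + 1))‖ ≤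
      A * h * max r 1 * ((((n + 1 : ℕ) : ℝ) + 1) ^ (r - 1) /
        (1 + (((n + 1 : ℕ) : ℝ) + 1) * h) ^ k) +
      A * h ^ 2 * (((n : ℝ) + 1) ^ r / (1 + ((n : ℝ) + 1) * h) ^ k) := by
  have hh0 : 0 < h := by rw [hh]; positivity
  have hh1 : h ≤ 1 := by
    rw [hh]
    exact inv_le_one_of_one_le₀ (one_le_pow₀ (by norm_num))
  have hp : 0 < ((n : ℝ) + 1) ^ r := Real.rpow_pos_of_pos (by positivity) r
  rw [cn_cc r W σ n ε hε, cn_cc r W σ (n + 1) ε hε, ← hh, ← mul_sub, norm_mul, cn_norm_E,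
    one_mul, ← mul_sub, norm_mul, Complex.norm_real, Real.norm_of_nonneg hh0.le]
  set x : ℝ := (((n + 1 : ℕ) : ℝ) + 1) with hx
  set y : ℝ := (n : ℝ) + 1 with hy
  have hxy : x = y + 1 := by rw [hx, hy]; push_cast; ring
  have hy0 : 0 < y := by rw [hy]; positivity
  have hx0 : 0 < x := by rw [hxy]; positivity
  have hpow : x ^ r - y ^ r ≤ max r 1 * x ^ (r - 1) := by
    have := cn_pow r (n + 1)
    rw [← hx] at this
    have e : ((n + 1 : ℕ) : ℝ) = y := by rw [hy]; push_cast; ring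
    rwa [e] at this
  have hpow0 : 0 ≤ x ^ r - y ^ r := by
    have := Real.rpow_le_rpow hy0.le (by linarith : y ≤ x) hr.le
    linarith
  have hx2 : |(ε : ℝ) * (x * h)| = x * h := by
    rw [hx]; exact cn_abs (n + 1) ε hε h hh0
  have hy2 : |(ε : ℝ) * (y * h)| = y * h := by
    rw [hy]; exact cn_abs n ε hε h hh0
  have hd : |(ε : ℝ) * (y * h) - (ε : ℝ) * (x * h)| = h := by
    have e : (ε : ℝ) * (y * h) - (ε : ℝ) * (x * h) = -((ε : ℝ) * h) := by rw [hxy]; ring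
    rw [e, abs_neg]
    rcases hε with h' | h' <;> rw [h'] <;> push_cast
    · rw [one_mul, abs_of_pos hh0]
    · rw [neg_one_mul, abs_neg, abs_of_pos hh0]
  have h1 := hA ((ε : ℝ) * (x * h))
  rw [hx2] at h1
  have h2 := hB ((ε : ℝ) * (y * h)) ((ε : ℝ) * (x * h)) (by rw [hd]; exact hh1)
  rw [hd, hy2] at h2
  have e1 : ((x ^ r : ℝ) : ℂ) * FT W ((ε : ℝ) * (x * h)) -
      ((y ^ r : ℝ) : ℂ) * FT W ((ε : ℝ) * (y * h)) =
      ((x ^ r - y ^ r : ℝ) : ℂ) * FT W ((ε : ℝ) * (x * h)) -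
      ((y ^ r : ℝ) : ℂ) * (FT W ((ε : ℝ) * (y * h)) - FT W ((ε : ℝ) * (x * h))) := by
    push_cast
    ring
  rw [e1]
  have h3 : ‖((x ^ r - y ^ r : ℝ) : ℂ) * FT W ((ε : ℝ) * (x * h)) -
      ((y ^ r : ℝ) : ℂ) * (FT W ((ε : ℝ) * (y * h)) - FT W ((ε : ℝ) * (x * h)))‖ ≤
      (max r 1 * x ^ (r - 1)) * (A / (1 + x * h) ^ k) + y ^ r * (A * h / (1 + y * h) ^ k) := by
    refine (norm_sub_le _ _).trans ?_
    rw [norm_mul, norm_mul, Complex.norm_real, Complex.norm_real, Real.norm_of_nonneg hpow0,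
      Real.norm_of_nonneg hp.le]
    have h4 : 0 ≤ A / (1 + x * h) ^ k := (norm_nonneg _).trans h1
    exact add_le_add (mul_le_mul hpow h1 (norm_nonneg _) (hpow0.trans hpow))
      (mul_le_mul_of_nonneg_left h2 hp.le)
  calc h * ‖((x ^ r - y ^ r : ℝ) : ℂ) * FT W ((ε : ℝ) * (x * h)) -
      ((y ^ r : ℝ) : ℂ) * (FT W ((ε : ℝ) * (y * h)) - FT W ((ε : ℝ) * (x * h)))‖
      ≤ h * ((max r 1 * x ^ (r - 1)) * (A / (1 + x * h) ^ k) +
        y ^ r * (A * h / (1 + y * h) ^ k)) := mul_le_mul_of_nonneg_left h3 hh0.le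
    _ = _ := by ring

theorem cn_zero (r : ℝ) (W : ℝ → ℝ) (σ k : ℕ) (A : ℝ)
    (hA : ∀ ξ : ℝ, ‖FT W ξ‖ ≤ A / (1 + |ξ|) ^ k) (h : ℝ) (hh : h = ((2 : ℝ) ^ σ)⁻¹) :
    ‖cc r W σ 0‖ ≤ A * h := by
  have hh0 : 0 < h := by rw [hh]; positivity
  have e : cc r W σ 0 = ((h : ℝ) : ℂ) * FT W 0 := by
    unfold cc mult
    rw [if_pos rfl, inv_one, one_mul, hh, Complex.ofReal_inv]
    simp
  rw [e, norm_mul, Complex.norm_real, Real.norm_of_nonneg hh0.le, mul_comm]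
  have h1 := hA 0
  rw [abs_zero, add_zero, one_pow, div_one] at h1
  exact mul_le_mul_of_nonneg_right h1 hh0.le

theorem st_CN (FC : ST_FC) (SER : ST_SER) : ST_CN := by
  intro r hr
  have hk : r + 2 ≤ (kk r : ℝ) := by
    unfold kk
    push_cast
    have := Nat.le_ceil r
    linarith
  obtain ⟨C1, hC1, H1⟩ := FC (kk r)
  obtain ⟨C2, hC2, H2⟩ := SER r (by linarith) (kk r) hk
  obtain ⟨C3, hC3, H3⟩ := SER (r - 1) (by linarith) (kk r) (by linarith)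
  have hR : (0 : ℝ) < max r 1 := lt_of_lt_of_le one_pos (le_max_right _ _)
  refine ⟨C1 * (1 + 2 * C2) + C1 * (4 + 2 * (max r 1 * C3 + C2)), by positivity, ?_⟩
  intro a W hW σ
  obtain ⟨hF1, hF2⟩ := H1 a W hW
  have ha : 0 ≤ a := (abs_nonneg _).trans (hW.2.2 0 (Nat.zero_le _) 0)
  set k := kk r with hkk
  set h : ℝ := ((2 : ℝ) ^ σ)⁻¹ with hh
  have hh0 : 0 < h := by rw [hh]; positivity
  have hh1 : h ≤ 1 := by
    rw [hh]
    exact inv_le_one_of_one_le₀ (one_le_pow₀ (by norm_num))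
  set A : ℝ := C1 * a with hA
  have hA0 : 0 ≤ A := by rw [hA]; positivity
  have ex : ∀ s : ℝ, h ^ (-s) = (2 : ℝ) ^ (s * σ) := by
    intro s
    rw [hh, ← Real.rpow_natCast, ← Real.rpow_neg (by norm_num), ← Real.rpow_mul (by norm_num)]
    congr 1
    ring
  have hX1 : (1 : ℝ) ≤ h ^ (-r) := by
    rw [ex]
    exact Real.one_le_rpow (by norm_num) (by positivity)
  have hX2 : h ≤ h ^ (1 - r) := by
    have := Real.rpow_le_rpow_of_exponent_ge hh0 hh1 (by linarith : (1 - r) ≤ 1)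
    rwa [Real.rpow_one] at this
  have hX20 : 0 < h ^ (1 - r) := Real.rpow_pos_of_pos hh0 _
  have hX10 : 0 < h ^ (-r) := Real.rpow_pos_of_pos hh0 _
  have eq1 : h * h ^ (-(r + 1)) = h ^ (-r) := by
    have := Real.rpow_add hh0 1 (-(r + 1))
    rw [Real.rpow_one] at this
    rw [← this]
    congr 1
    ring
  have eq2 : h ^ 2 * h ^ (-(r + 1)) = h ^ (1 - r) := by
    have := Real.rpow_add hh0 (2 : ℝ) (-(r + 1))
    rw [Real.rpow_two] at this
    rw [← this]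
    congr 1
    ring
  have eq3 : h * h ^ (-(r - 1 + 1)) = h ^ (1 - r) := by
    have := Real.rpow_add hh0 1 (-(r - 1 + 1))
    rw [Real.rpow_one] at this
    rw [← this]
    congr 1
    ring
  have z0 := cn_zero r W σ k A hF1 h hh
  -- sums of the coefficients
  have S1 : ∀ (ε : ℤ), (ε = 1 ∨ ε = -1) → ∀ N : ℕ,
      ∑ n ∈ Finset.range N, ‖cc r W σ (ε * ((n : ℤ) + 1))‖ ≤ A * C2 * h ^ (-r) := by
    intro ε hε N
    calc ∑ n ∈ Finset.range N, ‖cc r W σ (ε * ((n : ℤ) + 1))‖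
        ≤ ∑ n ∈ Finset.range N,
          A * h * (((n : ℝ) + 1) ^ r / (1 + ((n : ℝ) + 1) * h) ^ k) :=
          Finset.sum_le_sum fun n _ => cn_b1 r W σ k A hF1 n ε hε h hh
      _ = A * h * ∑ n ∈ Finset.range N, (((n : ℝ) + 1) ^ r / (1 + ((n : ℝ) + 1) * h) ^ k) := by
          rw [Finset.mul_sum]
      _ ≤ A * h * (C2 * h ^ (-(r + 1))) :=
          mul_le_mul_of_nonneg_left (H2 h hh0 hh1 N) (by positivity)
      _ = A * C2 * (h * h ^ (-(r + 1))) := by ring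
      _ = A * C2 * h ^ (-r) := by rw [eq1]
  -- sums of the increments
  have S2 : ∀ (ε : ℤ), (ε = 1 ∨ ε = -1) → ∀ N : ℕ,
      ∑ n ∈ Finset.range N, ‖cc r W σ (ε * (((n + 1 : ℕ) : ℤ) + 1)) -
        cc r W σ (ε * ((n : ℤ) + 1))‖ ≤ A * (max r 1 * C3 + C2) * h ^ (1 - r) := by
    intro ε hε N
    have T1 : ∑ n ∈ Finset.range N, ((((n + 1 : ℕ) : ℝ) + 1) ^ (r - 1) /
        (1 + (((n + 1 : ℕ) : ℝ) + 1) * h) ^ k) ≤ C3 * h ^ (-(r - 1 + 1)) := by
      have h1 := H3 h hh0 hh1 (N + 1)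
      rw [Finset.sum_range_succ'] at h1
      have h2 : 0 ≤ (((0 : ℕ) : ℝ) + 1) ^ (r - 1) / (1 + (((0 : ℕ) : ℝ) + 1) * h) ^ k := by
        positivity
      linarith
    calc ∑ n ∈ Finset.range N, ‖cc r W σ (ε * (((n + 1 : ℕ) : ℤ) + 1)) -
          cc r W σ (ε * ((n : ℤ) + 1))‖
        ≤ ∑ n ∈ Finset.range N, (A * h * max r 1 * ((((n + 1 : ℕ) : ℝ) + 1) ^ (r - 1) /
          (1 + (((n + 1 : ℕ) : ℝ) + 1) * h) ^ k) +
          A * h ^ 2 * (((n : ℝ) + 1) ^ r / (1 + ((n : ℝ) + 1) * h) ^ k)) :=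
          Finset.sum_le_sum fun n _ => cn_b2 r hr W σ k A hF1 hF2 n ε hε h hh
      _ = A * h * max r 1 * ∑ n ∈ Finset.range N, ((((n + 1 : ℕ) : ℝ) + 1) ^ (r - 1) /
          (1 + (((n + 1 : ℕ) : ℝ) + 1) * h) ^ k) +
          A * h ^ 2 * ∑ n ∈ Finset.range N,
            (((n : ℝ) + 1) ^ r / (1 + ((n : ℝ) + 1) * h) ^ k) := by
          rw [Finset.sum_add_distrib, Finset.mul_sum, Finset.mul_sum]
      _ ≤ A * h * max r 1 * (C3 * h ^ (-(r - 1 + 1))) +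
          A * h ^ 2 * (C2 * h ^ (-(r + 1))) :=
          add_le_add (mul_le_mul_of_nonneg_left T1 (by positivity))
            (mul_le_mul_of_nonneg_left (H2 h hh0 hh1 N) (by positivity))
      _ = A * max r 1 * C3 * (h * h ^ (-(r - 1 + 1))) +
          A * C2 * (h ^ 2 * h ^ (-(r + 1))) := by ring
      _ = A * (max r 1 * C3 + C2) * h ^ (1 - r) := by rw [eq2, eq3]; ring
  have P1 := cn_int_sum (fun n => ‖cc r W σ n‖) (fun n => norm_nonneg _)
    (A * C2 * h ^ (-r) + A * h) (A * C2 * h ^ (-r))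
    (cn_shift (fun n : ℕ => ‖cc r W σ (n : ℤ)‖) (fun n => norm_nonneg _) _ _
      (by simpa using z0) (fun N => by
        have := S1 1 (Or.inl rfl) N
        simp only [one_mul] at this
        refine le_trans (le_of_eq ?_) this
        refine Finset.sum_congr rfl fun n _ => ?_
        push_cast
        rfl))
    (fun N => by
        have := S1 (-1) (Or.inr rfl) N
        simp only [neg_one_mul] at this
        exact this)
  have one_bound : ∀ (ε : ℤ), (ε = 1 ∨ ε = -1) → ‖cc r W σ ε‖ ≤ A * h := by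
    intro ε hε
    have h1 := cn_b1 r W σ k A hF1 0 ε hε h hh
    simp only [Nat.cast_zero, zero_add, mul_one, Real.one_rpow, one_mul] at h1
    refine h1.trans ?_
    have h2 : 1 / (1 + h) ^ k ≤ 1 := by
      rw [div_le_one (by positivity)]
      exact one_le_pow₀ (by linarith)
    calc A * h * (1 / (1 + h) ^ k) ≤ A * h * 1 := mul_le_mul_of_nonneg_left h2 (by positivity)
      _ = A * h := mul_one _
  have P2 := cn_int_sum (fun n => ‖cc r W σ (n + 1) - cc r W σ n‖) (fun n => norm_nonneg _)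
    (A * (max r 1 * C3 + C2) * h ^ (1 - r) + 2 * (A * h))
    (A * (max r 1 * C3 + C2) * h ^ (1 - r) + 2 * (A * h))
    (cn_shift (fun n : ℕ => ‖cc r W σ ((n : ℤ) + 1) - cc r W σ (n : ℤ)‖)
      (fun n => norm_nonneg _) _ _
      (by
        have h1 := one_bound 1 (Or.inl rfl)
        have h2 : ‖cc r W σ (((0 : ℕ) : ℤ) + 1) - cc r W σ ((0 : ℕ) : ℤ)‖ ≤
            ‖cc r W σ 1‖ + ‖cc r W σ 0‖ := by
          simpa using norm_sub_le (cc r W σ 1) (cc r W σ 0)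
        linarith) (fun N => by
        have := S2 1 (Or.inl rfl) N
        simp only [one_mul] at this
        refine le_trans (le_of_eq ?_) this
        refine Finset.sum_congr rfl fun n _ => ?_
        push_cast
        rfl))
    (cn_shift (fun n : ℕ => ‖cc r W σ (-((n : ℤ) + 1) + 1) - cc r W σ (-((n : ℤ) + 1))‖)
      (fun n => norm_nonneg _) _ _
      (by
        have h1 := one_bound (-1) (Or.inr rfl)
        have h2 : ‖cc r W σ (-(((0 : ℕ) : ℤ) + 1) + 1) - cc r W σ (-(((0 : ℕ) : ℤ) + 1))‖ ≤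
            ‖cc r W σ 0‖ + ‖cc r W σ (-1)‖ := by
          simpa using norm_sub_le (cc r W σ 0) (cc r W σ (-1))
        linarith) (fun N => by
        have := S2 (-1) (Or.inr rfl) N
        simp only [neg_one_mul] at this
        refine le_trans (le_of_eq ?_) this
        refine Finset.sum_congr rfl fun n _ => ?_
        have e : -(((n + 1 : ℕ) : ℤ) + 1) + 1 = -((n : ℤ) + 1) := by push_cast; ring
        rw [norm_sub_rev, e]))
  have exr : (2 : ℝ) ^ (r * σ) = h ^ (-r) := (ex r).symm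
  have exr' : (2 : ℝ) ^ ((r - 1) * σ) = h ^ (1 - r) := by
    rw [← ex (r - 1)]
    congr 1
    ring
  have hAh1 : A * h ≤ A * h ^ (-r) := mul_le_mul_of_nonneg_left (hh1.trans hX1) hA0
  have hAh2 : A * h ≤ A * h ^ (1 - r) := mul_le_mul_of_nonneg_left hX2 hA0
  refine ⟨P1.1, P1.2.trans ?_, P2.1, P2.2.trans ?_⟩
  · rw [exr]
    have h1 : A * C2 * h ^ (-r) + A * h + A * C2 * h ^ (-r) ≤
        C1 * (1 + 2 * C2) * a * h ^ (-r) := by
      rw [hA] at hAh1 ⊢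
      nlinarith
    have h2 : 0 ≤ C1 * (4 + 2 * (max r 1 * C3 + C2)) * a * h ^ (-r) := by positivity
    calc A * C2 * h ^ (-r) + A * h + A * C2 * h ^ (-r)
        ≤ C1 * (1 + 2 * C2) * a * h ^ (-r) := h1
      _ ≤ C1 * (1 + 2 * C2) * a * h ^ (-r) +
          C1 * (4 + 2 * (max r 1 * C3 + C2)) * a * h ^ (-r) := by linarith
      _ = _ := by ring
  · rw [exr']
    have h2 : 0 ≤ C1 * (1 + 2 * C2) * a * h ^ (1 - r) := by positivity
    calc A * (max r 1 * C3 + C2) * h ^ (1 - r) + 2 * (A * h) +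
          (A * (max r 1 * C3 + C2) * h ^ (1 - r) + 2 * (A * h))
        ≤ A * (max r 1 * C3 + C2) * h ^ (1 - r) + 2 * (A * h ^ (1 - r)) +
          (A * (max r 1 * C3 + C2) * h ^ (1 - r) + 2 * (A * h ^ (1 - r))) := by linarith
      _ = C1 * (4 + 2 * (max r 1 * C3 + C2)) * a * h ^ (1 - r) := by rw [hA]; ring
      _ ≤ C1 * (1 + 2 * C2) * a * h ^ (1 - r) +
          C1 * (4 + 2 * (max r 1 * C3 + C2)) * a * h ^ (1 - r) := by linarith
      _ = _ := by ring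

end Pool.Agent.Helper37.SN
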