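import Pool.Agent.Helper37.SN.Stmts

set_option autoImplicit false

/-!
REP: the representative of a point of the circle.
-/

namespace Pool.Agent.Helper37.SN

open MeasureTheory Finset
open scoped ENNReal Classical

theorem rep78_coe (t : UnitAddCircle) : ((rep t : ℝ) : UnitAddCircle) = t :=
  AddCircle.coe_equivIoc (p := (1 : ℝ)) (a := -(1 / 2))

theorem rep78_mem (t : UnitAddCircle) : -(1 / 2) < rep t ∧ rep t ≤ 1 / 2 := by
  have h := (AddCircle.equivIoc (1 : ℝ) (-(1 / 2)) t).2
  refine ⟨h.1, h.2.trans ?_⟩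
  norm_num

theorem rep78_of_mem (u : ℝ) (h1 : -(1 / 2) < u) (h2 : u ≤ 1 / 2) :
    rep ((u : ℝ) : UnitAddCircle) = u := by
  unfold rep
  exact AddCircle.equivIoc_coe_of_mem (p := (1 : ℝ)) (a := -(1 / 2)) ⟨h1, by linarith⟩

theorem rep78_abs (t : UnitAddCircle) : |rep t| = ‖t‖ := by
  have h := (AddCircle.norm_coe_eq_abs_iff (1 : ℝ) (x := rep t) one_ne_zero).mpr (by
    have h1 := rep78_mem t
    rw [abs_one, abs_le]
    constructor
    · linarith [h1.1]
    · linarith [h1.2])
  rw [← h]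
  exact congrArg norm (rep78_coe t)

theorem st_REP : ST_REP := by
  refine ⟨rep78_coe, rep78_abs, rep78_mem, rep78_of_mem, fun s t h => ?_⟩
  have h1 := abs_lt.mp h
  have e : s + t = ((rep s + rep t : ℝ) : UnitAddCircle) := by
    rw [AddCircle.coe_add, rep78_coe, rep78_coe]
  rw [e]
  exact rep78_of_mem _ h1.1 h1.2.le

end Pool.Agent.Helper37.SN
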